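import Pool.Agent.X15.SysS.Clu

/-!
# Simultaneous primes `m² + s` and `m² + t`, `m = a q` with a clustered prime `q`, for most pairs `(s, t)`

For all but an arbitrarily small proportion of the admissible pairs `(s, t)` of positive integers up to `x²`, at least
`c x / (log x) ^ 3` integers `m = a q`, where `q ≤ x` is a prime with `k` other primes at distance at most `ε log q`, make
`m² + s` and `m² + t` simultaneously prime. Here `a ≥ 1` is fixed (for instance `a = 2`), `k` is arbitrarily large and `ε`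
arbitrarily small. The same for any number of constants.

The theorem rests on the library development Pool.Agent.TH882 (primes with several close neighbours are dense in most
reduced classes).
-/

set_option autoImplicit false

open Finset Filter Topology

namespace Pool.Agent.Results.MP_2dba45_nt.MostPairsOfConstants

/-- `q` is a prime, and there are at least `k` other primes at distance at most `R` from `q`. -/
def Clustered (k : ℕ) (R : ℝ) (q : ℕ) : Prop :=
  q.Prime ∧ k ≤ {p : ℕ | p.Prime ∧ p ≠ q ∧ |(p : ℝ) - q| ≤ R}.ncard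

/-- No local obstruction: for every prime `l` there is an integer `y` such that `l` divides neither `y` nor any
`(a y)² + t_j`. -/
def Admissible {r : ℕ} (a : ℕ) (t : Fin r → ℕ) : Prop :=
  ∀ l : ℕ, l.Prime → ∃ y : ℤ, ¬ (l : ℤ) ∣ y ∧ ∀ j, ¬ (l : ℤ) ∣ (a * y) ^ 2 + t j

/-- The integers `m = a q`, `q ≤ x` a prime with at least `k` other primes at distance at most `ε log q`, for which all
`m² + t_j` are prime. -/
def solutions {r : ℕ} (a k : ℕ) (ε : ℝ) (t : Fin r → ℕ) (x : ℕ) : Set ℕ :=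
  {m : ℕ | ∃ q : ℕ, q ≤ x ∧ Clustered k (ε * Real.log q) q ∧ m = a * q ∧ ∀ j, (m ^ 2 + t j).Prime}

/-- The admissible vectors of positive integers `t_j ≤ x²` with fewer than `c x / (log x) ^ (r + 1)` such `m`. -/
def exceptions (r a k : ℕ) (ε c : ℝ) (x : ℕ) : Set (Fin r → ℕ) :=
  {t : Fin r → ℕ | (∀ j, 1 ≤ t j ∧ t j ≤ x ^ 2) ∧ Admissible a t ∧
    ((solutions a k ε t x).ncard : ℝ) < c * (x / Real.log x ^ (r + 1))}

/-- **Simultaneous primes `m² + t_j`, `m` a multiple of a clustered prime, for most constants.** Let `a ≥ 1`, `r, k ≥ 0` and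
`ε, κ > 0`. There are `c > 0` and `x₀` such that for all `x ≥ x₀` and all admissible vectors `(t_1, ..., t_r)` of positive
integers `t_j ≤ x²`, with at most `κ x ^ (2 r)` exceptions, at least `c x / (log x) ^ (r + 1)` integers `m = a q`, where
`q ≤ x` is a prime with at least `k` other primes at distance at most `ε log q`, make all the numbers `m² + t_j` prime. -/
theorem result (r a k : ℕ) (ha : 1 ≤ a) (ε κ : ℝ) (hε : 0 < ε) (hκ : 0 < κ) : ∃ c : ℝ, 0 < c ∧ ∃ x₀ : ℕ,
    ∀ x : ℕ, x₀ ≤ x → ((exceptions r a k ε c x).ncard : ℝ) ≤ κ * (x : ℝ) ^ (2 * r) := by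
  classical
  have ha0 : (((a ^ 2 : ℕ) : ℤ)) ≠ 0 := by
    have h2 : 0 < a ^ 2 := by positivity
    exact_mod_cast h2.ne'
  obtain ⟨g, hg⟩ : ∃ g : Polynomial ℤ, g = Polynomial.C ((a ^ 2 : ℕ) : ℤ) * Polynomial.X ^ 2 := ⟨_, rfl⟩
  have hgd : g.natDegree = 2 := by
    rw [hg]
    exact Polynomial.natDegree_C_mul_X_pow 2 _ ha0
  have hge : ∀ n : ℤ, g.eval n = (a * n) ^ 2 := by
    intro n
    rw [hg]
    simp only [Polynomial.eval_mul, Polynomial.eval_C, Polynomial.eval_pow, Polynomial.eval_X]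
    push_cast
    ring
  obtain ⟨c, hc, x₀, h⟩ := Pool.Agent.X15.SysS.clu_sys (fun _ : Fin r => (1 : ℤ))
    (fun _ => Or.inl rfl) (fun _ => g) (fun _ => by rw [hgd]; norm_num)
    (fun _ => by
      rw [hg, Polynomial.leadingCoeff_C_mul_X_pow]
      positivity) k ε hε 1 κ hκ
  refine ⟨c, hc, x₀, fun x hx => ?_⟩
  have h1 := h x hx
  have e0 : ∏ j : Fin r, (x : ℝ) ^ g.natDegree = (x : ℝ) ^ (2 * r) := by
    rw [hgd, prod_const, card_univ, Fintype.card_fin, ← pow_mul]
  rw [e0] at h1
  refine le_trans ?_ h1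
  apply Nat.cast_le.2
  rw [← Set.ncard_coe_finset]
  apply Set.ncard_le_ncard _ (finite_toSet _)
  rintro t ⟨hk1, hk2, hk3⟩
  rw [mem_coe, mem_filter, Fintype.mem_piFinset]
  refine ⟨fun j => ?_, ?_, lt_of_le_of_lt ?_ hk3⟩
  · rw [mem_Icc, hgd, one_mul]
    exact hk1 j
  · intro l hl
    obtain ⟨y, hy1, hy2⟩ := hk2 l hl
    refine ⟨y, hy1, fun j hd => hy2 j ?_⟩
    rw [one_mul, hge, add_comm] at hd
    exact hd
  · apply Nat.cast_le.2
    rw [← Set.ncard_coe_finset]
    have hfin : (solutions a k ε t x).Finite := by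
      apply (Set.finite_Iic (a * x)).subset
      rintro m ⟨q, hq, -, rfl, -⟩
      exact Nat.mul_le_mul_left a hq
    apply Set.ncard_le_ncard_of_injOn (fun q : ℕ => a * q) _ _ hfin
    · intro q hq
      rw [mem_coe, mem_filter, mem_Icc] at hq
      obtain ⟨⟨hq1, hq2⟩, hq3, hq4⟩ := hq
      refine ⟨q, hq2, hq3, rfl, fun j => ?_⟩
      have h5 := hq4 j
      rw [one_mul, hge] at h5
      have h6 : ((t j : ℤ) + ((a : ℤ) * q) ^ 2).toNat = (a * q) ^ 2 + t j := by
        have : ((t j : ℤ) + ((a : ℤ) * q) ^ 2) = (((a * q) ^ 2 + t j : ℕ) : ℤ) := by push_cast; ring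
        rw [this, Int.toNat_natCast]
      rwa [h6] at h5
    · intro q _ q' _ hqq
      exact Nat.eq_of_mul_eq_mul_left ha hqq

end Pool.Agent.Results.MP_2dba45_nt.MostPairsOfConstants
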