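import Pool.Agent.X119.Dig

set_option autoImplicit false

/-!
# Almost primes `m ^ 2 + 1`, `m ^ 2 + 3` at integers with restricted digits

There are `c > 0` and `r₀` such that for all `r ≥ r₀`, all bases `b` and all large `K` the following
holds for ALL choices of sets `A 0, ..., A (K - 1)` of digits with `∏ |A i| ≥ exp (- c K) b ^ K`: the
integers `m < b ^ K` whose `i`-th digit belongs to `A i` for all `i < K`, such that `m ^ 2 + 1` and
`m ^ 2 + 3` have at most `r` prime factors each, all larger than `m ^ (1 / r)`, have the expected order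
`∏ |A i| / K ^ 2` (if the last digit can be chosen such that both values are coprime to the base), and at
most `C ∏ |A i| / K ^ 2` of the integers with these digits are such that both values are primes.
-/

namespace Pool.Agent.Results.MP_2dba45_nt.PrescribedDigits

open Finset Filter Polynomial
open Pool.Agent.Y816.PD (NA ND)
open Pool.Agent.TH464.PW (quad quad_irr quad_deg quad_lead quad_eval)

/-- `m ^ 2 + 1` and `m ^ 2 + 3` have at most `r` prime factors each (with multiplicity), all of them larger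
than `m ^ (1 / r)`. -/
def Almost (r : ℕ) : Set ℕ :=
  {m | (∀ p : ℕ, p.Prime → (p ∣ m ^ 2 + 1 ∨ p ∣ m ^ 2 + 3) → (m : ℝ) ^ (1 / (r : ℝ)) < (p : ℝ)) ∧
    (m ^ 2 + 1).primeFactorsList.length ≤ r ∧ (m ^ 2 + 3).primeFactorsList.length ≤ r}

/-- The admissible integers of the problem. -/
def S : Set ℕ := {m | (m ^ 2 + 1).Prime ∧ (m ^ 2 + 3).Prime}

/-- the constant terms -/
def e (i : Bool) : ℕ := if i then 3 else 1

lemma val (i : Bool) (m : ℕ) : (1 : ℤ) * (m : ℤ) ^ 2 + 0 * m + (e i : ℤ) = ((m ^ 2 + e i : ℕ) : ℤ) := by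
  push_cast
  ring

lemma sys : Pool.Agent.W123.RU.Poly.Sys (fun i : Bool => quad 1 0 (e i)) where
  irr := fun i => quad_irr 1 0 (e i) one_ne_zero (fun p hp h => by
      have h2 : p ∣ 1 := by exact_mod_cast h.1
      exact hp.one_lt.ne' (Nat.dvd_one.1 h2)) (by
      rintro ⟨x, hx⟩
      have h1 : (1 : ℤ) ≤ (e i : ℤ) := by cases i <;> simp [e]
      nlinarith [mul_self_nonneg x])
  deg := fun i => by rw [quad_deg 1 0 (e i) one_ne_zero]; norm_num
  lead := fun i => by rw [quad_lead 1 0 (e i) one_ne_zero]; norm_num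
  inj := fun i j hij => by
    have h1 := congrArg (Polynomial.eval ((0 : ℕ) : ℤ)) hij
    simp only [quad_eval] at h1
    cases i <;> cases j <;> simp [e] at h1 ⊢
  adm := fun p hp => by
    rcases Nat.lt_or_ge p 4 with h4 | h4
    · have h5 : p = 2 ∨ p = 3 := by
        have := hp.two_le
        omega
      rcases h5 with rfl | rfl
      · refine ⟨0, fun i h => ?_⟩
        rw [quad_eval, val i 0, Int.natCast_dvd_natCast] at h
        cases i <;> simp [e] at h
      · refine ⟨1, fun i h => ?_⟩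
        rw [quad_eval, val i 1, Int.natCast_dvd_natCast] at h
        cases i <;> simp [e] at h
    · refine ⟨0, fun i h => ?_⟩
      rw [quad_eval, val i 0, Int.natCast_dvd_natCast] at h
      have h6 := Nat.le_of_dvd (by cases i <;> simp [e]) h
      cases i <;> simp [e] at h6 <;> omega

/-- **Restricted digits.** -/
theorem result :
    ∃ c : ℝ, 0 < c ∧ ∃ r₀ : ℕ, 2 ≤ r₀ ∧ ∀ r : ℕ, r₀ ≤ r → ∀ b : ℕ, 2 ≤ b → ∃ κ C : ℝ, 0 < κ ∧ 0 < C ∧
      ∀ᶠ K : ℕ in atTop, ∀ A : ℕ → Finset ℕ, (∀ i < K, A i ⊆ range b) →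
        (b : ℝ) ^ K ≤ Real.exp (c * K) * NA K A →
        ((∃ d ∈ A 0, ((d ^ 2 + 1) * (d ^ 2 + 3)).Coprime b) →
          κ * NA K A / (K : ℝ) ^ 2 ≤ ND b K A (Almost r)) ∧
        (ND b K A S : ℝ) ≤ C * NA K A / (K : ℝ) ^ 2 := by
  have key : ∀ (i : Bool) (m p : ℕ), (p : ℤ) ∣ (quad 1 0 (e i)).eval (m : ℤ) ↔ p ∣ m ^ 2 + e i := by
    intro i m p
    rw [quad_eval, val i m]
    exact Int.natCast_dvd_natCast
  obtain ⟨c, hc, r₀, hr₀, h⟩ := Pool.Agent.Y816.PD.digits (fun i : Bool => quad 1 0 (e i)) sys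
    (fun r => {m | ∀ p : ℕ, p.Prime → (p ∣ m ^ 2 + 1 ∨ p ∣ m ^ 2 + 3) →
      (m : ℝ) ^ (1 / (r : ℝ)) < (p : ℝ)})
    Almost 2 (by simp)
    (fun r m hr h i p hp hd => by
      have h1 := (key i m p).1 hd
      cases i
      · exact h p hp (Or.inl h1)
      · exact h p hp (Or.inr h1))
    (fun r m hr h1 h2 => by
      have h3 := h2 false
      have h4 := h2 true
      simp only [quad_eval] at h3 h4
      rw [val, Int.natAbs_natCast] at h3 h4
      refine ⟨?_, h3, h4⟩
      rintro p hp (hd | hd)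
      · exact h1 false p hp ((key false m p).2 hd)
      · exact h1 true p hp ((key true m p).2 hd))
    (fun b d => ((d ^ 2 + 1) * (d ^ 2 + 3)).Coprime b)
    (fun b d hb h p hp hpb i hd => by
      have h1 : ¬ p ∣ (d ^ 2 + 1) * (d ^ 2 + 3) := fun hd => by
        have h2 := Nat.dvd_gcd hd hpb
        rw [h] at h2
        exact hp.one_lt.ne' (Nat.dvd_one.1 h2)
      have h2 := (key i d p).1 hd
      cases i
      · exact h1 (Dvd.dvd.mul_right h2 _)
      · exact h1 (Dvd.dvd.mul_left h2 _))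
  refine ⟨c, hc, r₀, hr₀, fun r hr b hb => ?_⟩
  obtain ⟨κ, C, hκ, hC, h1⟩ := h r hr b hb
  refine ⟨κ, C, hκ, hC, ?_⟩
  filter_upwards [h1] with K hK A hA hprod
  obtain ⟨h2, h3⟩ := hK A hA hprod
  refine ⟨h2, (Pool.Agent.X119.Dig.nd_mono b K A ?_).trans h3⟩
  rintro m ⟨hm1, hm2⟩ p hp hd
  have hr2 : 2 ≤ r := hr₀.trans hr
  rcases Nat.lt_or_ge m 2 with h5 | h5
  · interval_cases m
    · exact Pool.Agent.X119.Dig.zero_rough hr2 hp
    · exact Pool.Agent.X119.Dig.one_rough hp
  · rcases hd with hd | hd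
    · exact Pool.Agent.X119.Dig.prime_rough hr2 h5 hm1 (by nlinarith) hp hd
    · exact Pool.Agent.X119.Dig.prime_rough hr2 h5 hm2 (by nlinarith) hp hd

end Pool.Agent.Results.MP_2dba45_nt.PrescribedDigits
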