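import Pool.Agent.X119.Win

set_option autoImplicit false

/-!
# Almost primes `m ^ 2 + 1`, `m ^ 2 + 3` in all windows around a positive proportion of the integers of
every short interval

Let `0 < θ ≤ 1`. There are `r`, `c₁, c₂, K, κ > 0` and for every `δ > 0` a `B` such that for all large `X` and
all `X ^ θ ≤ Y ≤ X` at least `κ Y` of the integers `n` in `(X, X + Y]` are regular: every interval `(a, b]`
with `a ≤ n ≤ b` and `K log ^ 2 X ≤ b - a ≤ Y` contains between `c₁ (b - a) / log ^ 2 X` and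
`c₂ (b - a) / log ^ 2 X` integers `m` for which `m ^ 2 + 1` and `m ^ 2 + 3` have at most `r` prime factors
each, all larger than `X ^ (1 / r)`, and at all but at most `B` of the dyadic scales between `log ^ 2 X` and
`Y` these integers have a constant density around `n` up to `δ`.
-/

namespace Pool.Agent.Results.MP_2dba45_nt.RegularWindows

open Finset Filter Polynomial
open Pool.Agent.X119.Win (Order badScales)
open Pool.Agent.TH464.PW (quad quad_irr quad_deg quad_lead quad_eval)

/-- `m ^ 2 + 1` and `m ^ 2 + 3` have at most `r` prime factors each (with multiplicity), all of them larger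
than `X ^ (1 / r)`. -/
def Almost (r X m : ℕ) : Prop :=
  ((m ^ 2 + 1).primeFactorsList.length ≤ r ∧
    ∀ p : ℕ, p.Prime → p ∣ m ^ 2 + 1 → (X : ℝ) ^ (1 / (r : ℝ)) < (p : ℝ)) ∧
  ((m ^ 2 + 3).primeFactorsList.length ≤ r ∧
    ∀ p : ℕ, p.Prime → p ∣ m ^ 2 + 3 → (X : ℝ) ^ (1 / (r : ℝ)) < (p : ℝ))

/-- the constant terms -/
def e (i : Bool) : ℕ := if i then 3 else 1

lemma val (i : Bool) (m : ℕ) : (1 : ℤ) * (m : ℤ) ^ 2 + 0 * m + (e i : ℤ) = ((m ^ 2 + e i : ℕ) : ℤ) := by
  push_cast
  ring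

lemma sys : Pool.Agent.W123.RU.Poly.Sys (fun i : Bool => quad 1 0 (e i)) where
  irr := fun i => quad_irr 1 0 (e i) one_ne_zero (fun p hp h => by
      have h2 : p ∣ 1 := by exact_mod_cast h.1
      exact hp.one_lt.ne' (Nat.dvd_one.1 h2)) (by
      rintro ⟨x, hx⟩
      have h1 : (1 : ℤ) ≤ (e i : ℤ) := by cases i <;> simp [e]
      nlinarith [mul_self_nonneg x])
  deg := fun i => by rw [quad_deg 1 0 (e i) one_ne_zero]; norm_num
  lead := fun i => by rw [quad_lead 1 0 (e i) one_ne_zero]; norm_num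
  inj := fun i j hij => by
    have h1 := congrArg (Polynomial.eval ((0 : ℕ) : ℤ)) hij
    simp only [quad_eval] at h1
    cases i <;> cases j <;> simp [e] at h1 ⊢
  adm := fun p hp => by
    rcases Nat.lt_or_ge p 4 with h4 | h4
    · have h5 : p = 2 ∨ p = 3 := by
        have := hp.two_le
        omega
      rcases h5 with rfl | rfl
      · refine ⟨0, fun i h => ?_⟩
        rw [quad_eval, val i 0, Int.natCast_dvd_natCast] at h
        cases i <;> simp [e] at h
      · refine ⟨1, fun i h => ?_⟩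
        rw [quad_eval, val i 1, Int.natCast_dvd_natCast] at h
        cases i <;> simp [e] at h
    · refine ⟨0, fun i h => ?_⟩
      rw [quad_eval, val i 0, Int.natCast_dvd_natCast] at h
      have h6 := Nat.le_of_dvd (by cases i <;> simp [e]) h
      cases i <;> simp [e] at h6 <;> omega

open Classical in
/-- **Regular windows in short intervals.** -/
theorem result (θ : ℝ) (hθ : 0 < θ) (hθ1 : θ ≤ 1) :
    ∃ (r : ℕ) (c₁ c₂ K κ : ℝ), 0 < c₁ ∧ 0 < c₂ ∧ 0 < K ∧ 0 < κ ∧ ∀ δ : ℝ, 0 < δ → ∃ B : ℕ,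
      ∀ᶠ X : ℕ in atTop, ∀ Y : ℕ, (X : ℝ) ^ θ ≤ Y → Y ≤ X →
        κ * Y ≤ (((Finset.Ioc X (X + Y)).filter (fun n =>
          Order (Almost r X) 2 c₁ c₂ K X Y n ∧ badScales (Almost r X) 2 c₁ c₂ δ X Y n ≤ B)).card : ℝ) := by
  refine Pool.Agent.X119.Win.windows _ sys Almost (fun r X m => ?_) 2 (by simp) θ hθ hθ1
  have key : ∀ i : Bool, ((quad 1 0 (e i)).eval (m : ℤ)) = ((m ^ 2 + e i : ℕ) : ℤ) := by
    intro i
    rw [quad_eval, val i m]
  unfold Pool.Agent.TH464.PW.Almost Almost
  simp only [key, Int.natAbs_natCast, Int.natCast_dvd_natCast]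
  constructor
  · rintro ⟨h1, h2⟩ i
    cases i
    · exact h1
    · exact h2
  · intro h
    exact ⟨h false, h true⟩

end Pool.Agent.Results.MP_2dba45_nt.RegularWindows
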